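import Pool.Agent.helper51.VF.SpecA

/-!
# vf:DEX

Extension of derivations along an inseparable extension of degree `p`.
-/

set_option autoImplicit false

namespace Pool.Agent.VF

universe u

open Pool.Agent.PC Pool.Agent.QS

section

variable {k F K : Type u} [Field k] [Field F] [Field K] [Algebra k F] [Algebra k K] [Algebra F K]

/-- The map `∑ f_i X ^ i ↦ ∑ E (f_i) a ^ i`. -/
noncomputable def DEX_D (E : Derivation k F K) (a : K) (P : Polynomial F) : K :=
  P.sum fun i f => E f * a ^ i

theorem DEX_add (E : Derivation k F K) (a : K) (P Q : Polynomial F) :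
    DEX_D E a (P + Q) = DEX_D E a P + DEX_D E a Q := by
  unfold DEX_D
  refine Polynomial.sum_add_index P Q _ (fun i => by simp) (fun i f g => ?_)
  rw [map_add, add_mul]

theorem DEX_monomial (E : Derivation k F K) (a : K) (n : ℕ) (f : F) :
    DEX_D E a (Polynomial.monomial n f) = E f * a ^ n :=
  Polynomial.sum_monomial_index (S := K) f (fun i f => E f * a ^ i) (by simp)

theorem DEX_C (E : Derivation k F K) (a : K) (f : F) : DEX_D E a (Polynomial.C f) = E f := by
  have h := DEX_monomial E a 0 f
  rw [Polynomial.monomial_zero_left] at h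
  rw [h]; simp

theorem DEX_mul (E : Derivation k F K) (a : K) (P Q : Polynomial F) :
    DEX_D E a (P * Q) = Polynomial.aeval a P * DEX_D E a Q
      + Polynomial.aeval a Q * DEX_D E a P := by
  induction P using Polynomial.induction_on' with
  | add P P' h h' =>
    rw [add_mul, DEX_add, h, h', map_add, DEX_add]; ring
  | monomial n f =>
    induction Q using Polynomial.induction_on' with
    | add Q Q' h h' =>
      rw [mul_add, DEX_add, h, h', map_add, DEX_add]; ring
    | monomial m g =>
      rw [Polynomial.monomial_mul_monomial, DEX_monomial, DEX_monomial, DEX_monomial,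
        Polynomial.aeval_monomial, Polynomial.aeval_monomial, Derivation.leibniz,
        Algebra.smul_def, Algebra.smul_def]
      ring

/-- If the map kills the polynomials which vanish at `a`, it gives a derivation of `K`. -/
theorem DEX_lift [IsScalarTower k F K] (E : Derivation k F K) (a : K)
    (hs : ∀ x : K, ∃ P : Polynomial F, Polynomial.aeval a P = x)
    (hk : ∀ P : Polynomial F, Polynomial.aeval a P = 0 → DEX_D E a P = 0) :
    ∃ E' : Derivation k K K, ∀ f : F, E' (algebraMap F K f) = E f := by
  choose Q hQ using hs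
  have key : ∀ P P' : Polynomial F, Polynomial.aeval a P = Polynomial.aeval a P' →
      DEX_D E a P = DEX_D E a P' := by
    intro P P' h
    have h1 : Polynomial.aeval a (P - P') = 0 := by rw [map_sub, h, sub_self]
    have h2 := hk _ h1
    have h3 := DEX_add E a (P - P') P'
    rw [sub_add_cancel, h2, zero_add] at h3
    exact h3
  have hE0 : ∀ c : k, E (algebraMap k F c) = 0 := fun c => E.map_algebraMap c
  refine ⟨Derivation.mk' (R := k) (A := K) (M := K)
    { toFun := fun x => DEX_D E a (Q x)
      map_add' := ?_
      map_smul' := ?_ } ?_, ?_⟩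
  · intro x y
    rw [← DEX_add]
    exact key _ _ (by rw [map_add, hQ, hQ, hQ])
  · intro c x
    have h1 : DEX_D E a (Q (c • x)) =
        DEX_D E a (Polynomial.C (algebraMap k F c) * Q x) := by
      refine key _ _ ?_
      rw [hQ, map_mul, hQ, Polynomial.aeval_C, ← IsScalarTower.algebraMap_apply,
        Algebra.smul_def]
    rw [h1, DEX_mul, DEX_C, hE0, mul_zero, add_zero, Polynomial.aeval_C,
      ← IsScalarTower.algebraMap_apply, RingHom.id_apply, Algebra.smul_def]
  · intro x y
    change DEX_D E a (Q (x * y)) = x • DEX_D E a (Q y) + y • DEX_D E a (Q x)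
    have h1 : DEX_D E a (Q (x * y)) = DEX_D E a (Q x * Q y) :=
      key _ _ (by rw [hQ, map_mul, hQ, hQ])
    rw [h1, DEX_mul, hQ, hQ, smul_eq_mul, smul_eq_mul]
  · intro f
    change DEX_D E a (Q (algebraMap F K f)) = E f
    rw [← DEX_C E a f]
    exact key _ _ (by rw [hQ, Polynomial.aeval_C])

end

/-- Extension of a derivation which kills the `p`-th powers. -/
theorem DEX : DEX_stmt.{u} := by
  intro k F K _ _ _ _ _ _ _ p hp _ hfin hpow E hE
  have hpp : p.Prime := hp.out
  have hfd : FiniteDimensional F K := Module.finite_of_finrank_pos (by rw [hfin]; exact hpp.pos)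
  -- an element outside `F`
  obtain ⟨a, ha⟩ : ∃ a : K, ∀ f : F, algebraMap F K f ≠ a := by
    by_contra hcon
    push Not at hcon
    have hbt : (⊥ : IntermediateField F K) = ⊤ := by
      rw [eq_top_iff]
      intro x _
      obtain ⟨f, hf⟩ := hcon x
      exact IntermediateField.mem_bot.mpr ⟨f, hf⟩
    have h1 := IntermediateField.bot_eq_top_iff_finrank_eq_one.mp hbt
    rw [hfin] at h1
    exact hpp.one_lt.ne' h1
  have hint : IsIntegral F a := IsIntegral.of_finite F a
  -- `K = F(a)`
  have htop : IntermediateField.adjoin F {a} = ⊤ := by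
    have hsimp := IntermediateField.isSimpleOrder_of_finrank_prime F K (by rw [hfin]; exact hpp)
    rcases hsimp.eq_bot_or_eq_top (IntermediateField.adjoin F {a}) with h | h
    · exfalso
      have h1 : a ∈ IntermediateField.adjoin F {a} := IntermediateField.mem_adjoin_simple_self F a
      rw [h] at h1
      obtain ⟨f, hf⟩ := IntermediateField.mem_bot.mp h1
      exact ha f hf
    · exact h
  have hs : ∀ x : K, ∃ P : Polynomial F, Polynomial.aeval a P = x := by
    intro x
    have h1 : x ∈ (IntermediateField.adjoin F {a}).toSubalgebra := by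
      rw [htop]; trivial
    rw [IntermediateField.adjoin_simple_toSubalgebra_of_isAlgebraic hint.isAlgebraic,
      Algebra.adjoin_singleton_eq_range_aeval] at h1
    obtain ⟨P, hP⟩ := h1
    exact ⟨P, hP⟩
  have hdeg : (minpoly F a).natDegree = p := by
    rw [← IntermediateField.adjoin.finrank hint, htop, ← hfin]
    exact IntermediateField.finrank_top'
  obtain ⟨α, hα⟩ := hpow a
  have hmin : minpoly F a = Polynomial.X ^ p - Polynomial.C α := by
    symm
    refine Polynomial.eq_of_monic_of_dvd_of_natDegree_le (minpoly.monic hint)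
      (Polynomial.monic_X_pow_sub_C α hpp.ne_zero) ?_ ?_
    · refine minpoly.dvd F a ?_
      rw [map_sub, map_pow, Polynomial.aeval_X, Polynomial.aeval_C, hα, sub_self]
    · rw [Polynomial.natDegree_X_pow_sub_C, hdeg]
  refine DEX_lift E a hs ?_
  intro P hP
  obtain ⟨Q, hQ⟩ := minpoly.dvd F a hP
  have h0 : DEX_D E a (Polynomial.X ^ p - Polynomial.C α) = 0 := by
    have h1 : (Polynomial.X ^ p - Polynomial.C α : Polynomial F) =
        Polynomial.monomial p 1 + Polynomial.C (-α) := by
      rw [Polynomial.C_neg, ← Polynomial.X_pow_eq_monomial, sub_eq_add_neg]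
    rw [h1, DEX_add, DEX_monomial, DEX_C, E.map_one_eq_zero, map_neg, hE a α hα]
    simp
  rw [hQ, DEX_mul, minpoly.aeval, zero_mul, zero_add, hmin, h0, mul_zero]

end Pool.Agent.VF
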